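import Pool.Agent.Helper25.ZM.Bridge

set_option autoImplicit false

/-! For `k ≤ 4`, every fixed `α` and almost all `β` the shifted moments of zeta of order `2k` follow the recipe with a
power saving. -/

namespace Pool.Agent.Results.MP_fa2474_nt.FixedAlphaAlmostAllBeta

open MeasureTheory Set
open Pool.Agent.Helper25.ZM.Rec

/-- For every `k ≤ 4` there is `δ > 0` such that for every `α ∈ ℝ^k` there is `T₀` with the following property. For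
`T ≥ T₀` and `0 ≤ S ≤ T` all `β ∈ [0, T]^k` outside a set of measure at most `T^(k - δ)` satisfy
`|∫_0^S Z_{α,β}(t) dt - S ζ_{(α,β)}(1/2)| ≤ T^(1 - δ)` and, when the `α_j` are distinct,
`|∫_0^S (Z_{α,β}(t) - Q_k(t; α, β)) dt| ≤ T^(1 - δ)`. -/
theorem result (k : ℕ) (hk : k ≤ 4) : ∃ δ : ℝ, 0 < δ ∧ ∀ α : Fin k → ℝ, ∃ T₀ : ℝ, ∀ T : ℝ, T₀ ≤ T →
    ∀ S : ℝ, 0 ≤ S → S ≤ T →
    volume {β : Fin k → ℝ | (∀ i, 0 ≤ β i ∧ β i ≤ T) ∧
      (T ^ (1 - δ) < ‖(∫ t in (0 : ℝ)..S, Z (Sum.elim α β) t) - S * zetaAB α β‖ ∨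
        (Function.Injective α ∧
          T ^ (1 - δ) < ‖∫ t in (0 : ℝ)..S, (Z (Sum.elim α β) t - Q t (Sum.elim α β))‖))} ≤
    ENNReal.ofReal (T ^ (k - δ : ℝ)) := by
  obtain ⟨δ1, hδ1, h1⟩ := Pool.Agent.Helper25.ZM.gf_main k hk
  obtain ⟨δ2, hδ2, h2⟩ := Pool.Agent.Helper25.ZM.gf_mainD k hk
  set δ0 : ℝ := min δ1 δ2 with hδ0
  have hδ0p : 0 < δ0 := lt_min hδ1 hδ2
  refine ⟨δ0 / 2, by positivity, fun α => ?_⟩
  obtain ⟨T2, h2⟩ := h2 α
  -- the diagonal part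
  have key2 : ∀ T : ℝ, max T2 1 ≤ T → ∀ S : ℝ, 0 ≤ S → S ≤ T →
      volume {β : Fin k → ℝ | (∀ i, 0 ≤ β i ∧ β i ≤ T) ∧
        T ^ (1 - δ0 / 2) < ‖(∫ t in (0 : ℝ)..S, Z (Sum.elim α β) t) - S * zetaAB α β‖} ≤
      ENNReal.ofReal (T ^ (k - δ0 : ℝ)) := by
    intro T hT S hS0 hST
    have hT1 : (1 : ℝ) ≤ T := (le_max_right _ _).trans hT
    have g := h2 T ((le_max_left _ _).trans hT) S hS0 hST
    rw [mP_apply T (fun γ hγ => hγ.1)] at g
    refine (measure_mono ?_).trans (g.trans (ENNReal.ofReal_le_ofReal ?_))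
    · rintro β ⟨hβ, hβ2⟩
      refine ⟨hβ, lt_of_le_of_lt ?_ hβ2⟩
      refine Real.rpow_le_rpow_of_exponent_le hT1 ?_
      have : δ0 ≤ δ2 := min_le_right _ _
      linarith
    · refine Real.rpow_le_rpow_of_exponent_le hT1 ?_
      have : δ0 ≤ δ2 := min_le_right _ _
      linarith
  -- the part with all the swap terms
  have key1 : ∃ T1 : ℝ, ∀ T : ℝ, T1 ≤ T → ∀ S : ℝ, 0 ≤ S → S ≤ T →
      volume {β : Fin k → ℝ | (∀ i, 0 ≤ β i ∧ β i ≤ T) ∧ (Function.Injective α ∧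
          T ^ (1 - δ0 / 2) < ‖∫ t in (0 : ℝ)..S, (Z (Sum.elim α β) t - Q t (Sum.elim α β))‖)} ≤
      ENNReal.ofReal (T ^ (k - δ0 : ℝ)) := by
    by_cases hα : Function.Injective α
    · obtain ⟨T1, h1⟩ := h1 α hα
      refine ⟨max T1 1, fun T hT S hS0 hST => ?_⟩
      have hT1 : (1 : ℝ) ≤ T := (le_max_right _ _).trans hT
      have g := h1 T ((le_max_left _ _).trans hT) S hS0 hST
      rw [mP_apply T (fun γ hγ => hγ.1)] at g
      refine (measure_mono ?_).trans (g.trans (ENNReal.ofReal_le_ofReal ?_))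
      · rintro β ⟨hβ, -, hβ2⟩
        refine ⟨hβ, lt_of_le_of_lt ?_ hβ2⟩
        refine Real.rpow_le_rpow_of_exponent_le hT1 ?_
        have : δ0 ≤ δ1 := min_le_left _ _
        linarith
      · refine Real.rpow_le_rpow_of_exponent_le hT1 ?_
        have : δ0 ≤ δ1 := min_le_left _ _
        linarith
    · refine ⟨0, fun T _ S _ _ => ?_⟩
      simp [hα]
  obtain ⟨T1, key1⟩ := key1
  obtain ⟨T3, hT3⟩ : ∃ T3 : ℝ, ∀ T : ℝ, T3 ≤ T → 2 ≤ T ^ (δ0 / 2) := by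
    have := (tendsto_rpow_atTop (show 0 < δ0 / 2 by positivity)).eventually_ge_atTop 2
    exact Filter.eventually_atTop.1 this
  refine ⟨max (max T1 (max T2 1)) T3, fun T hT S hS0 hST => ?_⟩
  have hTa : max T2 1 ≤ T := (le_max_right _ _).trans ((le_max_left _ _).trans hT)
  have hTb : T1 ≤ T := (le_max_left _ _).trans ((le_max_left _ _).trans hT)
  have hT1 : (1 : ℝ) ≤ T := (le_max_right _ _).trans hTa
  have hT2 := hT3 T ((le_max_right _ _).trans hT)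
  have e : {β : Fin k → ℝ | (∀ i, 0 ≤ β i ∧ β i ≤ T) ∧
      (T ^ (1 - δ0 / 2) < ‖(∫ t in (0 : ℝ)..S, Z (Sum.elim α β) t) - S * zetaAB α β‖ ∨
        (Function.Injective α ∧
          T ^ (1 - δ0 / 2) < ‖∫ t in (0 : ℝ)..S, (Z (Sum.elim α β) t - Q t (Sum.elim α β))‖))} =
      {β : Fin k → ℝ | (∀ i, 0 ≤ β i ∧ β i ≤ T) ∧
        T ^ (1 - δ0 / 2) < ‖(∫ t in (0 : ℝ)..S, Z (Sum.elim α β) t) - S * zetaAB α β‖} ∪
      {β : Fin k → ℝ | (∀ i, 0 ≤ β i ∧ β i ≤ T) ∧ (Function.Injective α ∧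
          T ^ (1 - δ0 / 2) < ‖∫ t in (0 : ℝ)..S, (Z (Sum.elim α β) t - Q t (Sum.elim α β))‖)} := by
    ext β
    simp only [mem_setOf_eq, mem_union]
    tauto
  rw [e]
  refine (measure_union_le _ _).trans ((add_le_add (key2 T hTa S hS0 hST) (key1 T hTb S hS0 hST)).trans ?_)
  rw [← ENNReal.ofReal_add (by positivity) (by positivity)]
  refine ENNReal.ofReal_le_ofReal ?_
  have hTp : 0 < T := by linarith
  have e2 : T ^ (k - δ0 / 2 : ℝ) = T ^ (k - δ0 : ℝ) * T ^ (δ0 / 2) := by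
    rw [← Real.rpow_add hTp]
    congr 1
    ring
  rw [e2]
  have : 0 < T ^ (k - δ0 : ℝ) := by positivity
  nlinarith

end Pool.Agent.Results.MP_fa2474_nt.FixedAlphaAlmostAllBeta
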