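import Pool.Agent.Helper25.ZM.Bridge

set_option autoImplicit false

/-! The recipe for the shifted moments of zeta of every order holds with a power saving for almost all shifts. -/

namespace Pool.Agent.Results.MP_fa2474_nt.RecipeAlmostAllShifts

open MeasureTheory Set
open Pool.Agent.Helper25.ZM.Rec

/-- For every `k` there are `δ > 0` and `T₀` such that for `T ≥ T₀` all shift vectors `(α, β)` in the cube `[0, T]^{2k}`,
outside a set of measure at most `T^(2k - δ)`, satisfy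
`|∫_0^S (Z_{α,β}(t) - Q_k(t; α, β)) dt| ≤ T^(1 - δ)` for all `0 ≤ S ≤ T`. -/
theorem result (k : ℕ) : ∃ δ : ℝ, 0 < δ ∧ ∃ T₀ : ℝ, ∀ T : ℝ, T₀ ≤ T →
    volume {γ : Fin k ⊕ Fin k → ℝ | (∀ i, 0 ≤ γ i ∧ γ i ≤ T) ∧
      ∃ S : ℝ, 0 ≤ S ∧ S ≤ T ∧ T ^ (1 - δ) < ‖∫ t in (0 : ℝ)..S, (Z γ t - Q t γ)‖} ≤
    ENNReal.ofReal (T ^ (2 * k - δ : ℝ)) := by
  obtain ⟨δ, hδ, T₀, h⟩ := Pool.Agent.Helper25.ZM.gs_main k
  refine ⟨δ, hδ, T₀, fun T hT => ?_⟩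
  have h1 := h T hT
  rw [mP_apply T (fun γ hγ => hγ.1)] at h1
  exact h1

end Pool.Agent.Results.MP_fa2474_nt.RecipeAlmostAllShifts
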