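import Pool.Agent.Helper25.ZM.Bridge
import Pool.Agent.Helper25.ZM.PUAll

set_option autoImplicit false

/-! Shifted moments of zeta of every order over short intervals and for almost all shifts in short ranges. -/

namespace Pool.Agent.Results.MP_fa2474_nt.ShortIntervalsShortShifts

open Complex MeasureTheory Set
open Pool.Agent.Helper25.ZM.Rec

noncomputable section

/-- the regular points: `∫_t^(t+U) |ζ(1/2+iu)|² du ≤ U V` -/
def Reg (U V : ℝ) : Set ℝ := {t | ∫ u in t..(t + U), ‖riemannZeta (1 / 2 + I * u)‖ ^ 2 ≤ U * V}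

/-- For every `k` there are `δ > 0`, `C₀` and `T₀` with the following property. Let `T ≥ T₀`, `0 < H ≤ T`, `U ≤ T` and
`H U ≥ T (log T)^C₀`; put `y = (H U / T)^δ`. All points of `[T, T+H]`, outside a set of measure at most `H / y`, belong to
`Reg U (y^3)`; if `U ≥ T^(1/2)` then all points of `[T, T+H]` do. For all shift vectors `(α, β)` in `[0, U]^{2k}` outside
a set of measure at most `U^(2k) / y`, the integral of `Z_{α,β}` over the regular points of `[T, T+H]` is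
`H ζ_{(α,β)}(1/2)` up to an error of absolute value at most `H / y`. -/
theorem result (k : ℕ) : ∃ δ C₀ T₀ : ℝ, 0 < δ ∧ ∀ T H U : ℝ, T₀ ≤ T → 0 < H → H ≤ T → U ≤ T →
    T * Real.log T ^ C₀ ≤ H * U →
    volume (Icc T (T + H) \ Reg U ((H * U / T) ^ (3 * δ))) ≤ ENNReal.ofReal (H * (H * U / T) ^ (-δ)) ∧
    (T ^ (1 / 2 : ℝ) ≤ U → Icc T (T + H) ⊆ Reg U ((H * U / T) ^ (3 * δ))) ∧
    volume {γ : Fin k ⊕ Fin k → ℝ | (∀ i, 0 ≤ γ i ∧ γ i ≤ U) ∧
      H * (H * U / T) ^ (-δ) < ‖(∫ t in Reg U ((H * U / T) ^ (3 * δ)) ∩ Icc T (T + H), Z γ t) -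
        H * zetaAB (fun j => γ (Sum.inl j)) (fun j => γ (Sum.inr j))‖} ≤
      ENNReal.ofReal (U ^ (2 * k) * (H * U / T) ^ (-δ)) := by
  obtain ⟨δ, C₀, T₀, hδ, h⟩ := Pool.Agent.Helper25.ZM.pu_main k
  refine ⟨δ, C₀, T₀, hδ, fun T H U hT hH hHT hUT hHU => ?_⟩
  obtain ⟨h1, h2, h3⟩ := h T H U hT hH hHT hUT hHU
  refine ⟨h1, h2, le_trans (le_of_eq ?_) h3⟩
  have e : ∀ (γ : Fin k ⊕ Fin k → ℝ) (t : ℝ), Z γ t =
      ∏ i, Pool.Agent.N879.PU.fs Pool.Agent.TH612.GS.z i (t + γ i) := by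
    intro γ t
    rw [Z_eq, Pool.Agent.TH612.GS.Zg_fz, Fintype.prod_sum_type, Finset.prod_mul_distrib]
    rfl
  have e2 : {γ : Fin k ⊕ Fin k → ℝ | (∀ i, 0 ≤ γ i ∧ γ i ≤ U) ∧
      H * (H * U / T) ^ (-δ) < ‖(∫ t in Reg U ((H * U / T) ^ (3 * δ)) ∩ Icc T (T + H), Z γ t) -
        H * zetaAB (fun j => γ (Sum.inl j)) (fun j => γ (Sum.inr j))‖} =
      {γ | H * (H * U / T) ^ (-δ) < ‖(∫ t in Pool.Agent.N879.PU.Gu U ((H * U / T) ^ (3 * δ)) ∩ Icc T (T + H),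
        ∏ i, Pool.Agent.N879.PU.fs Pool.Agent.TH612.GS.z i (t + γ i)) - H * Pool.Agent.TH612.GS.zr γ‖} ∩
        (univ.pi fun _ => Icc 0 U) := by
    ext γ
    simp only [e, mem_ofPred_eq, mem_inter_iff, mem_pi, mem_univ, mem_Icc, true_implies]
    rw [and_comm]
    rfl
  rw [e2, mP_eq, Measure.restrict_apply' (MeasurableSet.univ_pi fun _ => measurableSet_Icc)]

end

end Pool.Agent.Results.MP_fa2474_nt.ShortIntervalsShortShifts
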