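import Pool.Agent.Helper25.ZM.Defs
import Pool.Agent.Helper25.ZM.GPAll

set_option autoImplicit false

/-! The shifted moments of `|ζ|` of every even order, with `α = β`, for almost all shifts, with the error `T^(1/2+ε)`. -/

namespace Pool.Agent.Results.MP_fa2474_nt.SquareRootErrorAlmostAll

open Complex MeasureTheory Set
open Pool.Agent.Helper25.ZM.Rec

noncomputable section

/-- all the shifts `(0, c_1, …, c_n)` -/
def sh {n : ℕ} (c : Fin n → ℝ) : Fin (n + 1) → ℝ := Fin.cons 0 c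

/-- the main term of the recipe for `α = β = (0, c_1, …, c_n) =: x` as a contour integral over the torus `|w_j| = 1/8`:
`(2πi)^(-(n+1)) ∮ F(1/2; x - i w, x + i w) ∏_{i,l} ζ(1 + w_i + w_l + i(x_i - x_l)) ∏_j (2 / w_j) ((t + x_j) / 2π)^(w_j) dw` -/
def mainTerm {n : ℕ} (c : Fin n → ℝ) (t : ℝ) : ℂ :=
  ((2 * Real.pi * I) ^ (n + 1))⁻¹ * torusIntegral (fun w : Fin (n + 1) → ℂ =>
    F (fun j => sh c j - I * w j) (fun j => sh c j + I * w j) *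
      (∏ i, ∏ l, riemannZeta (1 + w i + w l + I * (sh c i - sh c l))) *
      ∏ j, (2 / w j * cexp (w j * (Real.log ((t + sh c j) / (2 * Real.pi)) : ℝ))))
    (fun _ => 0) (fun _ => 1 / 8)

/-- For every `n` and `ε > 0` there are `δ > 0` and `T₀` such that for `T ≥ T₀` and `0 ≤ S ≤ T` the moment
`∫_0^S |ζ(1/2+it)|² ∏_{j ≤ n} |ζ(1/2+i(t+c_j))|² dt` differs from `∫_0^S mainTerm c t dt` by at most `T^(1/2+ε)` for all
`c ∈ [0,T]^n` outside a set of measure at most `T^(n-δ)`. -/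
theorem result (n : ℕ) (ε : ℝ) (hε : 0 < ε) : ∃ δ : ℝ, 0 < δ ∧ ∃ T₀ : ℝ, ∀ T : ℝ, T₀ ≤ T →
    ∀ S : ℝ, 0 ≤ S → S ≤ T →
    volume {c : Fin n → ℝ | (∀ j, 0 ≤ c j ∧ c j ≤ T) ∧
      T ^ (1 / 2 + ε) < ‖((∫ t in (0 : ℝ)..S, ∏ j, ‖riemannZeta (1 / 2 + I * (t + sh c j))‖ ^ 2 : ℝ) : ℂ) -
        ∫ t in (0 : ℝ)..S, mainTerm c t‖} ≤ ENNReal.ofReal (T ^ (n - δ : ℝ)) := by
  obtain ⟨δ, T₀, hδ, h⟩ := Pool.Agent.Helper25.ZM.gp_main n ε hε
  refine ⟨δ, hδ, T₀, fun T hT S hS0 hST => ?_⟩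
  have h1 := h T S hT hS0 hST
  have e : ∀ (c : Fin n → ℝ) (t : ℝ), (∏ j, Pool.Agent.Y969.GP.ff (t + Pool.Agent.Y969.GP.cc c j) : ℝ) =
      ∏ j, ‖riemannZeta (1 / 2 + I * (t + sh c j))‖ ^ 2 := by
    intro c t
    refine Finset.prod_congr rfl fun j _ => ?_
    unfold Pool.Agent.Y969.GP.ff
    push_cast
    rfl
  simp only [e] at h1
  exact h1

end

end Pool.Agent.Results.MP_fa2474_nt.SquareRootErrorAlmostAll
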